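import Pool.Agent.E802.Derive

/-!
# MP_e802f4_al: the restricted Burnside groups `R(m, 7)` modulo the derived series of the
subgroup of 5-Engel commutators

Let `G` be a finite group of exponent dividing 7 generated by `m` elements and let `E` be the
subgroup generated by the 5-Engel commutators `[a, b, b, b, b, b]`. Then for every `d` the term
`γ_{(K d - 1) m + 1}(G)` of the lower central series (which is `lowerCentralSeries ((K d - 1) * m)`
in Mathlib's indexing) lies in the `d`-th derived subgroup of `E`, where `K 0 = 7` and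
`K (i + 1) = K i + 6 ^ (K i - 1)`.
-/

universe u

namespace Pool.Agent.Results.MP_e802f4_al.EngelDerived

open scoped commutatorElement
open Pool.E802

theorem result (K : ℕ → ℕ) (hK0 : K 0 = 7) (hK : ∀ i, K (i + 1) = K i + 6 ^ (K i - 1))
    (d m : ℕ) (G : Type u) [Group G] [Finite G] (h7 : ∀ g : G, g ^ 7 = 1)
    (x : Fin m → G) (hx : Subgroup.closure (Set.range x) = ⊤) :
    (⊤ : Subgroup G).lowerCentralSeries ((K d - 1) * m) ≤
      (derivedSeries
        (Subgroup.closure {g : G | ∃ a b : G, g = ⁅⁅⁅⁅⁅a, b⁆, b⁆, b⁆, b⁆, b⁆}) d).map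
        (Subgroup.closure {g : G | ∃ a b : G, g = ⁅⁅⁅⁅⁅a, b⁆, b⁆, b⁆, b⁆, b⁆}).subtype := by
  generalize hE : Subgroup.closure {g : G | ∃ a b : G, g = ⁅⁅⁅⁅⁅a, b⁆, b⁆, b⁆, b⁆, b⁆} = E
  have hn : E.Normal := by
    constructor
    intro n hn g
    rw [← hE] at hn
    induction hn using Subgroup.closure_induction with
    | one => rw [mul_one, mul_inv_cancel]; exact one_mem _
    | mul a b _ _ ha hb =>
      have e : g * (a * b) * g⁻¹ = (g * a * g⁻¹) * (g * b * g⁻¹) := by group
      rw [e]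
      exact mul_mem ha hb
    | inv a _ ha =>
      have e : g * a⁻¹ * g⁻¹ = (g * a * g⁻¹)⁻¹ := by group
      rw [e]
      exact inv_mem ha
    | mem c hc =>
      obtain ⟨a, b, rfl⟩ := hc
      rw [← hE]
      refine Subgroup.subset_closure ⟨MulAut.conj g a, MulAut.conj g b, ?_⟩
      have e : g * ⁅⁅⁅⁅⁅a, b⁆, b⁆, b⁆, b⁆, b⁆ * g⁻¹ =
          MulAut.conj g ⁅⁅⁅⁅⁅a, b⁆, b⁆, b⁆, b⁆, b⁆ := rfl
      rw [e]
      simp only [map_commutatorElement]
  have hmem : ∀ a b : G, NSer.eng5 a b ∈ E := by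
    intro a b
    rw [← hE]
    exact Subgroup.subset_closure ⟨a, b, rfl⟩
  rw [← Dn_eq]
  exact lcs_le_derived h7 hn hmem hK0 hK d m x hx

end Pool.Agent.Results.MP_e802f4_al.EngelDerived
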